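import Pool.Agent.Q37.BinV.Colon

/-!
# MP_09f072_ag (Q1): `v_∅(J_G) ≤ reg(S/J_G)` for every finite simple graph `G` and every field.
-/

open MvPolynomial

namespace Pool.Agent.Results.MP_09f072_ag.VEmptyLeReg

/-- The polynomial ring `S = K[x_1, …, x_n, y_1, …, y_n]`: `x_i` is `X (i, false)` and `y_i` is
`X (i, true)`. -/
abbrev S (K : Type*) [Field K] (n : ℕ) : Type _ := MvPolynomial (Fin n × Bool) K

/-- The minor `x_i y_j - x_j y_i`. -/
noncomputable def mnr (K : Type*) [Field K] {n : ℕ} (i j : Fin n) : S K n :=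
  X (i, false) * X (j, true) - X (j, false) * X (i, true)

/-- The binomial edge ideal `J_G`. -/
noncomputable def J (K : Type*) [Field K] {n : ℕ} (G : SimpleGraph (Fin n)) : Ideal (S K n) :=
  Ideal.span {f | ∃ i j, i < j ∧ G.Adj i j ∧ f = mnr K i j}

/-- The ideal `P_∅(G)`: the minors of all pairs of vertices in the same connected component. -/
noncomputable def PEmpty (K : Type*) [Field K] {n : ℕ} (G : SimpleGraph (Fin n)) : Ideal (S K n) :=
  Ideal.span {f | ∃ i j, i < j ∧ G.Reachable i j ∧ f = mnr K i j}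

/-- The local v-number `v_∅(J_G)`: the least degree of a homogeneous `f` with
`(J_G : f) = P_∅(G)` (it would be `⊤` if there were no such `f`). -/
noncomputable def vEmpty (K : Type*) [Field K] {n : ℕ} (G : SimpleGraph (Fin n)) : ℕ∞ :=
  sInf {d : ℕ∞ | ∃ e : ℕ, d = e ∧ ∃ f : S K n, f.IsHomogeneous e ∧
    ∀ g, g * f ∈ J K G ↔ g ∈ PEmpty K G}

/-- Alternating functions of `i` indices in `σ` with values in `M`; with `M = S/I` and `σ` the set
of variables this is the `i`-th term of the Koszul complex of `S/I` with respect to the variables: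
`Y v` is the coefficient at `e_{v 0} ∧ ⋯ ∧ e_{v (i-1)}`. -/
def Alternating {σ M : Type*} [AddCommGroup M] {i : ℕ} (Y : (Fin i → σ) → M) : Prop :=
  (∀ v a b, a ≠ b → v a = v b → Y v = 0) ∧ ∀ v a b, a ≠ b → Y (v ∘ Equiv.swap a b) = - Y v

variable {σ K : Type*} [Fintype σ] [Field K]

/-- The Koszul differential, `e_{v 0} ∧ ⋯ ∧ e_{v i} ↦ ∑_j (-1)^j x_{v j} ⋯ \hat{e_{v j}} ⋯`, in terms
of coefficients. -/
noncomputable def kosd (I : Ideal (MvPolynomial σ K)) {i : ℕ}
    (Y : (Fin (i + 1) → σ) → MvPolynomial σ K ⧸ I) (v : Fin i → σ) : MvPolynomial σ K ⧸ I :=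
  ∑ t, Ideal.Quotient.mk I (X t) * Y (Fin.cons t v)

/-- Koszul cycles. -/
def IsCycle (I : Ideal (MvPolynomial σ K)) :
    {i : ℕ} → ((Fin i → σ) → MvPolynomial σ K ⧸ I) → Prop
  | 0, _ => True
  | _ + 1, Y => ∀ v, kosd I Y v = 0

/-- `Tor_i(S/I, K)_{i+e} = H_i(x; S/I)_{i+e} ≠ 0`: there is a Koszul cycle with coefficients of
degree `e` which is not a boundary. -/
def TorNonzero (I : Ideal (MvPolynomial σ K)) (i e : ℕ) : Prop :=
  ∃ Y : (Fin i → σ) → MvPolynomial σ K ⧸ I, Alternating Y ∧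
    (∀ v, ∃ p : MvPolynomial σ K, p.IsHomogeneous e ∧ Y v = Ideal.Quotient.mk I p) ∧
    IsCycle I Y ∧
    ¬ ∃ W : (Fin (i + 1) → σ) → MvPolynomial σ K ⧸ I, Alternating W ∧ ∀ v, Y v = kosd I W v

/-- The Castelnuovo-Mumford regularity of `S/I`: the supremum of the `e` such that
`Tor_i(S/I, K)_{i+e} ≠ 0` for some `i`. -/
noncomputable def reg (I : Ideal (MvPolynomial σ K)) : ℕ∞ :=
  sSup {d : ℕ∞ | ∃ i e : ℕ, d = e ∧ TorNonzero I i e}

/-- Q1: for every finite simple graph `G` and every field `K`, `v_∅(J_G) ≤ reg(S/J_G)`. More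
precisely `Tor_k(S/J_G, K)_{2k} ≠ 0` for some `k ≥ v_∅(J_G)`. -/
theorem result (K : Type*) [Field K] (n : ℕ) (G : SimpleGraph (Fin n)) :
    vEmpty K G ≤ reg (J K G) ∧ ∃ k : ℕ, vEmpty K G ≤ k ∧ TorNonzero (J K G) k k := by
  have hsw : ∀ i j : Fin n, Q14.Bei.minor K i j = - Q14.Bei.minor K j i := by
    intro i j; unfold Q14.Bei.minor; ring
  have hJ : J K G = Q14.Bei.beIdeal K G := by
    apply le_antisymm
    · refine Ideal.span_mono ?_
      rintro _ ⟨i, j, _, h, rfl⟩
      exact ⟨i, j, h, rfl⟩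
    · refine Ideal.span_le.2 ?_
      rintro _ ⟨i, j, h, rfl⟩
      rcases lt_trichotomy i j with hij | hij | hij
      · exact Ideal.subset_span ⟨i, j, hij, h, rfl⟩
      · exact absurd hij h.ne
      · rw [hsw]
        exact Ideal.neg_mem_iff _ |>.2 (Ideal.subset_span ⟨j, i, hij, h.symm, rfl⟩)
  have hP : PEmpty K G = Q37.BinV.P0 K G := by
    apply le_antisymm
    · refine Ideal.span_mono ?_
      rintro _ ⟨i, j, _, h, rfl⟩
      exact ⟨i, j, h, rfl⟩
    · refine Ideal.span_le.2 ?_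
      rintro _ ⟨i, j, h, rfl⟩
      rcases lt_trichotomy i j with hij | hij | hij
      · exact Ideal.subset_span ⟨i, j, hij, h, rfl⟩
      · subst hij
        have : Q14.Bei.minor K i i = 0 := by unfold Q14.Bei.minor; ring
        rw [this]
        exact Ideal.zero_mem _
      · rw [hsw]
        exact Ideal.neg_mem_iff _ |>.2 (Ideal.subset_span ⟨j, i, hij, h.symm, rfl⟩)
  obtain ⟨L, hC, hL⟩ := Q37.BinV.total G
  have hv : vEmpty K G ≤ (L.length : ℕ∞) := by
    refine sInf_le ⟨L.length, rfl, Q37.BinV.fL K L, Q37.BinV.fL_hom L, fun g => ?_⟩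
    rw [hJ, hP]
    exact Q37.BinV.colon hL g
  have hT : TorNonzero (J K G) L.length L.length := by
    refine ⟨fun v => Ideal.Quotient.mk _ (Q37.BinV.ZZ K L v), ?_, ?_, ?_, ?_⟩
    · have h := Q37.BinV.ZZ_isAlt (K := K) L
      refine ⟨fun v a b hab hv => ?_, fun v a b hab => ?_⟩
      · simp only
        rw [h.1 v a b hab hv, map_zero]
      · simp only
        rw [h.2 v a b hab, map_neg]
    · exact fun v => ⟨_, Q37.BinV.ZZ_hom L v, rfl⟩
    · have hadj := hC.adj
      clear hv hL hC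
      cases L with
      | nil => trivial
      | cons a L =>
        intro v
        have h1 := Q37.BinV.ZZ_cycle (K := K) hadj v
        rw [← hJ] at h1
        have h2 := Ideal.Quotient.eq_zero_iff_mem.2 h1
        unfold Q37.BinV.dd at h2
        rw [map_sum] at h2
        unfold kosd
        rw [← h2]
        refine Finset.sum_congr rfl fun t _ => ?_
        rw [map_mul]
    · rintro ⟨W, hW, hYW⟩
      obtain ⟨s, hs⟩ := LinearMap.exists_rightInverse_of_surjective
        (Ideal.Quotient.mkₐ K (J K G)).toLinearMap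
        (LinearMap.range_eq_top.2 (Ideal.Quotient.mkₐ_surjective K (J K G)))
      have hs' : ∀ x, Ideal.Quotient.mk (J K G) (s x) = x := fun x => LinearMap.congr_fun hs x
      refine Q37.BinV.nonvanish L ∅ hC (fun v => s (W v)) ?_ ?_
      · refine ⟨fun v a b hab hv => ?_, fun v a b hab => ?_⟩
        · simp only
          rw [hW.1 v a b hab hv, map_zero]
        · simp only
          rw [hW.2 v a b hab, map_neg]
      · intro v
        refine Q37.BinV.beIdeal_le_QI _ ?_
        have hYv : Ideal.Quotient.mk (J K G) (Q37.BinV.ZZ K L v) = kosd (J K G) W v := hYW v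
        rw [← hJ, ← Ideal.Quotient.eq_zero_iff_mem, map_sub, hYv]
        unfold kosd Q37.BinV.dd
        rw [map_sum, sub_eq_zero]
        refine Finset.sum_congr rfl fun t _ => ?_
        rw [map_mul, hs']
  refine ⟨hv.trans ?_, L.length, hv, hT⟩
  exact le_sSup ⟨L.length, L.length, rfl, hT⟩

end Pool.Agent.Results.MP_09f072_ag.VEmptyLeReg
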